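import Mathlib
import Pool.Agent.H987Z.MSU.Defs
import Pool.Agent.H987Z.MSU.Main

set_option autoImplicit false

namespace Pool.Agent.Results.MP_27a2ed_lc.ALarge

open Pool.Agent.H987Z.MSU

/-- Every countable group with a finite index subgroup mapping onto the free group of rank two
(in particular the free group of rank two itself) is minimal subshift universal. -/
theorem result (Γ : Type) [Group Γ] [Countable Γ] (H : Subgroup Γ) [H.FiniteIndex]
    (ρ : H →* FreeGroup (Fin 2)) (hρ : Function.Surjective ρ) : MinimalSubshiftUniversal Γ :=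
  msu_of_large Γ H ρ hρ

/-- The instance asked for in Q1. -/
example : MinimalSubshiftUniversal (FreeGroup (Fin 2)) :=
  result _ ⊤ (Subgroup.subtype ⊤) (fun x => ⟨⟨x, trivial⟩, rfl⟩)

end Pool.Agent.Results.MP_27a2ed_lc.ALarge
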